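import Mathlib
import Pool.Agent.R76.Mader.Final3

/-!
# The conjectured bound for `r ≤ k ≤ 3r - 1`
-/

namespace Pool.Agent.Results.MP_3f30af_co.ExactUpToThreeRMinusOne

open Pool.Agent.R76.Mader

/-- Let `r ≥ 3` and `r ≤ k ≤ 3r - 1`. Every `r`-uniform hypergraph `H` on `n` vertices with no
`(k+1)`-connected subgraph, where `n ≥ 2k+1`, or `n ≥ 2k` in case `k ≤ 2r-1`, satisfies
`e(H) ≤ C(n,r) - C(n-k,r) + (n/k - 2) C(k,r)`. -/
theorem result {α : Type*} [DecidableEq α] (r k : ℕ) (hr : 3 ≤ r) (hrk : r ≤ k)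
    (hk : k ≤ 3 * r - 1) (H : HG α) (hU : H.Uniform r) (hH : H.NoSuccConn k)
    (hn : 2 * k + 1 ≤ H.V.card ∨ (k ≤ 2 * r - 1 ∧ 2 * k ≤ H.V.card)) :
    (H.E.card : ℝ) ≤ (H.V.card.choose r : ℝ) - ((H.V.card - k).choose r : ℝ) +
      ((H.V.card : ℝ) / k - 2) * (k.choose r : ℝ) := by
  have hS := sep_of_noSuccConn H k hH
  have hn' : 2 * k ≤ H.V.card := by rcases hn with h | h <;> omega
  obtain ⟨c, hc⟩ : ∃ c, H.V.card = k + c := ⟨H.V.card - k, by omega⟩
  have h1 : (k : ℝ) * ((c.choose r : ℝ) - (mis H.E r H.V ∅).card) ≤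
      ((c : ℝ) - k) * k.choose r := by
    by_cases hk2 : k ≤ 2 * r - 1
    · exact (saving_exact (E := H.E) (by omega : 2 ≤ r) hrk hk2 c H.V hS hc).2 (by omega)
    · have : k + 1 ≤ c := by rcases hn with h | h <;> omega
      exact saving_exact3 (E := H.E) hr (by omega) hk c this H.V hS hc
  have h2 := card_edges (by omega : 1 ≤ r) H hU
  have h2' : (H.E.card : ℝ) + (mis H.E r H.V ∅).card = H.V.card.choose r := by exact_mod_cast h2
  have hk0 : (0 : ℝ) < (k : ℝ) := by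
    have : 0 < k := by omega
    exact_mod_cast this
  have e1 : H.V.card - k = c := by omega
  have e2 : ((H.V.card : ℝ) / k - 2) * (k.choose r : ℝ) =
      (((c : ℝ) - k) * k.choose r) / k := by
    rw [hc]; push_cast; field_simp; ring
  rw [e1, e2]
  have h3 : (c.choose r : ℝ) - (mis H.E r H.V ∅).card ≤ (((c : ℝ) - k) * k.choose r) / k := by
    rw [le_div_iff₀ hk0]; linarith
  linarith

end Pool.Agent.Results.MP_3f30af_co.ExactUpToThreeRMinusOne
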