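import Mathlib
import Pool.Agent.R76.Mader.LowerCount

/-!
# The conjectured inequality fails for `n = (q+1)k`, `1 ≤ q < ⌊k/r⌋`
-/

namespace Pool.Agent.Results.MP_3f30af_co.FailsUpToKSquaredOverR

open Pool.Agent.R76.Mader

/-- Let `r ≥ 3` and `1 ≤ q < ⌊k/r⌋`. There is an `r`-uniform hypergraph `H` on
`n = (q+1)k` vertices with no `(k+1)`-connected subgraph and
`e(H) ≥ C(n,r) - C(n-k,r) + (n/k - 2) C(k,r) + (⌊k/r⌋ - q)`. -/
theorem result (r k q : ℕ) (hr : 3 ≤ r) (hq1 : 1 ≤ q) (hq : q < k / r) :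
    ∃ H : HG (Fin (q + 1) × Fin k), H.V.card = (q + 1) * k ∧ H.Uniform r ∧ H.NoSuccConn k ∧
      (H.V.card.choose r : ℝ) - ((H.V.card - k).choose r : ℝ) +
        ((H.V.card : ℝ) / k - 2) * (k.choose r : ℝ) + (((k / r : ℕ) : ℝ) - q) ≤ (H.E.card : ℝ) := by
  have hkr : r ≤ k := by
    by_contra h
    have : k / r = 0 := Nat.div_eq_of_lt (by omega)
    omega
  have hk0 : (0 : ℝ) < (k : ℝ) := by
    have : 0 < k := by omega
    exact_mod_cast this
  have hV : (Hq q k r).V.card = (q + 1) * k := by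
    show (Finset.univ : Finset (Fin (q + 1) × Fin k)).card = _
    simp
  refine ⟨Hq q k r, hV, ?_, noSuccConn_of_sep _ _ (sep_Hq (by omega) hkr), ?_⟩
  · intro e he
    classical
    exact (Finset.mem_powersetCard.mp (Finset.mem_filter.mp he).1).2
  · have h1 := card_Hq (q := q) (k := k) (r := r) (by omega)
    have h2 : (((q + 1) * k).choose r : ℝ) + ((k / r : ℕ) : ℝ) + q * k.choose r ≤
        ((Hq q k r).E.card : ℝ) + (k.choose r + (q * k).choose r + q) := by exact_mod_cast h1
    rw [hV]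
    have e1 : (q + 1) * k - k = q * k := by
      have : (q + 1) * k = q * k + k := by ring
      omega
    have e2 : ((((q + 1) * k : ℕ) : ℝ) / k - 2) = (q : ℝ) - 1 := by
      push_cast
      rw [mul_div_assoc, div_self hk0.ne']
      ring
    rw [e1, e2]
    linarith

end Pool.Agent.Results.MP_3f30af_co.FailsUpToKSquaredOverR
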