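import Mathlib
import Pool.Agent.R76.Mader.Main

/-!
# The conjectured linear term up to the factor `1 + 1/(2^(r+1) - 2)`
-/

namespace Pool.Agent.Results.MP_3f30af_co.LinearTerm

open Pool.Agent.R76.Mader

/-- Let `r ≥ 3` and `k ≥ 1`. Every `r`-uniform hypergraph `H` on `n ≥ 3k` vertices with no
`(k+1)`-connected subgraph satisfies
`e(H) ≤ C(n,r) - C(n-k,r) + (1 + 1/(2^(r+1) - 2)) ((n-k)/k) C(k,r) - C(k,r)`. -/
theorem result {α : Type*} [DecidableEq α] (r k : ℕ) (hr : 3 ≤ r) (hk : 1 ≤ k)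
    (H : HG α) (hU : H.Uniform r) (hH : H.NoSuccConn k) (hn : 3 * k ≤ H.V.card) :
    (H.E.card : ℝ) ≤ (H.V.card.choose r : ℝ) - ((H.V.card - k).choose r : ℝ) +
      (1 + 1 / (2 ^ (r + 1) - 2)) * (((H.V.card : ℝ) - k) / k) * (k.choose r : ℝ) -
        (k.choose r : ℝ) := by
  have hS := sep_of_noSuccConn H k hH
  obtain ⟨c, hc⟩ : ∃ c, H.V.card = k + c := ⟨H.V.card - k, by omega⟩
  have h1 := saving_linear (E := H.E) hr hk c (by omega) H.V hS hc
  have h2 := card_edges (by omega : 1 ≤ r) H hU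
  have h2' : (H.E.card : ℝ) + (mis H.E r H.V ∅).card = H.V.card.choose r := by exact_mod_cast h2
  have hk0 : (0 : ℝ) < (k : ℝ) := by exact_mod_cast hk
  have hL7 : (7 : ℝ) ≤ 2 ^ r - 1 := by
    have : (2 : ℝ) ^ 3 ≤ 2 ^ r := pow_le_pow_right₀ (by norm_num) hr
    linarith
  have e1 : H.V.card - k = c := by omega
  have e2 : ((H.V.card : ℝ) - k) / k = (c : ℝ) / k := by
    rw [hc]; push_cast; ring
  have e3 : (2 : ℝ) ^ (r + 1) - 2 = 2 * ((2 : ℝ) ^ r - 1) := by rw [pow_succ]; ring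
  rw [e1, e2, e3]
  set L : ℝ := (2 : ℝ) ^ r - 1
  have hL : (0 : ℝ) < 2 * L := by linarith
  have h3 : ((c.choose r : ℝ) - (mis H.E r H.V ∅).card) + k.choose r ≤
      (1 + 1 / (2 * L)) * ((c : ℝ) / k) * k.choose r := by
    have h4 : (2 * L) * (((c.choose r : ℝ) - (mis H.E r H.V ∅).card) + k.choose r) ≤
        (2 * L) * ((1 + 1 / (2 * L)) * ((c : ℝ) / k) * k.choose r) := by
      have h5 : (2 * L) * ((1 + 1 / (2 * L)) * ((c : ℝ) / k) * k.choose r) =
          (2 * L + 1) * ((c : ℝ) / k) * k.choose r := by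
        field_simp
      rw [h5]
      exact h1
    exact le_of_mul_le_mul_left h4 hL
  linarith

end Pool.Agent.Results.MP_3f30af_co.LinearTerm
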